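import Pool.Agent.W221.NS.Stm2
import Pool.Agent.W612.MD.Slc
import Pool.Agent.W386.MD.PKa

/-!
Functions in a moving frame.
-/

open MeasureTheory Set Metric
open scoped ContDiff

namespace W372.ME

open H459R3.NS W221.NS

lemma pd_mov (f : V → ℝ) (a : V) (i : Fin 3) (z : V) :
    pd i (fun x => f (x - a)) z = pd i f (z - a) := by
  unfold pd
  rw [fderiv_comp_sub]

lemma lap_mov (f : V → ℝ) (a : V) (z : V) : lap (fun x => f (x - a)) z = lap f (z - a) := by
  unfold lap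
  refine Finset.sum_congr rfl fun j _ => ?_
  have : pd j (fun x => f (x - a)) = fun x => pd j f (x - a) := funext fun x => pd_mov f a j x
  rw [this, pd_mov]

lemma adv_mov (c : V → V) (f : V → ℝ) (a : V) (z : V) :
    adv c (fun x => f (x - a)) z = ∑ j, c z j * pd j f (z - a) := by
  unfold adv
  exact Finset.sum_congr rfl fun j _ => by rw [pd_mov]

lemma fderiv_sum (f : V → ℝ) (x c : V) : fderiv ℝ f x c = ∑ j, c j * pd j f x := by
  have h1 : c = ∑ j, c j • (Pi.single j (1 : ℝ) : V) := by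
    ext i
    simp [Finset.sum_apply, Pi.single_apply]
  conv_lhs => rw [h1, map_sum]
  refine Finset.sum_congr rfl fun j _ => ?_
  rw [map_smul, smul_eq_mul]
  rfl

lemma smooth_mov {f : ℝ → V → ℝ} {y : ℝ → V} {b α β β₀ : ℝ}
    (hf : ContDiffOn ℝ ∞ (fun z : ℝ × V => f z.1 z.2) (Iio b ×ˢ univ))
    (hy : ContDiffOn ℝ ∞ y (Ioo α β₀)) (h1 : β ≤ b) (h2 : β ≤ β₀) :
    ContDiffOn ℝ ∞ (fun z : ℝ × V => f z.1 (z.2 - y z.1)) (Ioo α β ×ˢ univ) := by
  have hg : ContDiffOn ℝ ∞ (fun z : ℝ × V => ((z.1, z.2 - y z.1) : ℝ × V)) (Ioo α β ×ˢ univ) := by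
    refine contDiffOn_fst.prodMk (contDiffOn_snd.sub ?_)
    exact hy.comp contDiffOn_fst fun z hz => ⟨hz.1.1, hz.1.2.trans_le h2⟩
  exact hf.comp hg fun z hz => ⟨hz.1.2.trans_le h1, trivial⟩

lemma deriv_mov {f : ℝ → V → ℝ} {y : ℝ → V} {b t : ℝ} {c : V}
    (hf : ContDiffOn ℝ ∞ (fun z : ℝ × V => f z.1 z.2) (Iio b ×ˢ univ)) (ht : t < b)
    (hy : HasDerivAt y c t) (z : V) :
    deriv (fun s => f s (z - y s)) t
      = deriv (fun s => f s (z - y t)) t - ∑ j, c j * pd j (f t) (z - y t) := by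
  have hopen : IsOpen (Iio b ×ˢ (univ : Set V)) := isOpen_Iio.prod isOpen_univ
  have hmem : ((t, z - y t) : ℝ × V) ∈ Iio b ×ˢ (univ : Set V) := ⟨ht, trivial⟩
  have hd : DifferentiableAt ℝ (fun z : ℝ × V => f z.1 z.2) (t, z - y t) :=
    ((hf.contDiffAt (hopen.mem_nhds hmem)).differentiableAt (by simp))
  obtain ⟨L, hL⟩ := hd
  have e1 : HasDerivAt (fun s => f s (z - y s)) (L (1, -c)) t := by
    have h1 : HasDerivAt (fun s : ℝ => ((s, z - y s) : ℝ × V)) (1, -c) t :=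
      (hasDerivAt_id t).prodMk (hy.const_sub z)
    exact hL.comp_hasDerivAt t h1
  have e2 : HasDerivAt (fun s => f s (z - y t)) (L (1, 0)) t := by
    have h1 : HasDerivAt (fun s : ℝ => ((s, z - y t) : ℝ × V)) (1, 0) t :=
      (hasDerivAt_id t).prodMk (hasDerivAt_const t _)
    exact hL.comp_hasDerivAt t h1
  have e3 : HasFDerivAt (f t) (L.comp (ContinuousLinearMap.inr ℝ ℝ V)) (z - y t) := by
    have h1 : HasFDerivAt (fun x : V => ((t, x) : ℝ × V)) (ContinuousLinearMap.inr ℝ ℝ V) (z - y t) :=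
      hasFDerivAt_prodMk_right t (z - y t)
    exact HasFDerivAt.comp (z - y t) hL h1
  have e4 : L (0, c) = ∑ j, c j * pd j (f t) (z - y t) := by
    rw [← fderiv_sum, e3.fderiv]
    rfl
  rw [e1.deriv, e2.deriv, ← e4, ← map_sub]
  congr 1
  simp

lemma cs_w {W : V → V} (hW : ContDiff ℝ ∞ W) {Φ : V → ℝ} (hΦ : Continuous Φ)
    (h0 : ∀ z, 0 ≤ Φ z) (hs : ∀ z ∉ ball (0 : V) 1, Φ z = 0) :
    ∫ z, √(nsq W z) * Φ z ≤ √(∫ z, Φ z) * √(∫ z, nsq W z * Φ z) := by
  have hn := W612.MD.nsq_cont hW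
  have hint : ∀ f : V → ℝ, Continuous f → (∀ z, Φ z = 0 → f z = 0) → Integrable f := by
    intro f hf hf0
    apply hf.integrable_of_hasCompactSupport
    apply HasCompactSupport.intro (isCompact_closedBall (0 : V) 1)
    intro z h
    exact hf0 z (hs z fun h' => h (ball_subset_closedBall h'))
  have h1 := Pool.Agent.W386.MD.cs (μ := volume) (fun z => √(Φ z)) (fun z => √(nsq W z) * √(Φ z))
    (hint _ (by fun_prop) (by intro z hz; simp [hz]))
    (hint _ (by fun_prop) (by intro z hz; simp [hz]))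
    (hint _ (by fun_prop) (by intro z hz; simp [hz]))
  have e1 : ∀ z, √(Φ z) * (√(nsq W z) * √(Φ z)) = √(nsq W z) * Φ z := by
    intro z
    calc √(Φ z) * (√(nsq W z) * √(Φ z)) = √(nsq W z) * (√(Φ z) * √(Φ z)) := by ring
      _ = _ := by rw [Real.mul_self_sqrt (h0 z)]
  have e2 : ∀ z, √(Φ z) ^ 2 = Φ z := fun z => Real.sq_sqrt (h0 z)
  have e3 : ∀ z, (√(nsq W z) * √(Φ z)) ^ 2 = nsq W z * Φ z := by
    intro z
    rw [mul_pow, Real.sq_sqrt (h0 z), Real.sq_sqrt (W612.MD.nsq_nonneg W z)]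
  simp only [e1, e2, e3] at h1
  exact (le_abs_self _).trans h1

lemma pd_zero_cl {Φ : V → ℝ} {a : V} {ρ : ℝ} (hs : ∀ z ∉ ball a ρ, Φ z = 0) (j : Fin 3) :
    ∀ z ∉ closedBall a ρ, pd j Φ z = 0 :=
  W612.MD.pd_zero_on isClosed_closedBall.isOpen_compl
    (fun y hy => hs y fun h => hy (ball_subset_closedBall h)) j

lemma lap_zero_cl {Φ : V → ℝ} {a : V} {ρ : ℝ} (hs : ∀ z ∉ ball a ρ, Φ z = 0) :
    ∀ z ∉ closedBall a ρ, lap Φ z = 0 := by
  intro z hz
  unfold lap
  refine Finset.sum_eq_zero fun j _ => ?_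
  exact W612.MD.pd_zero_on isClosed_closedBall.isOpen_compl (fun y hy => pd_zero_cl hs j y hy) j z hz

lemma lap_cont {f : V → ℝ} (hf : ContDiff ℝ ∞ f) : Continuous (lap f) := by
  unfold lap
  exact continuous_finsetSum _ fun j _ =>
    (Pool.Agent.W386.MD.cd_pd (Pool.Agent.W386.MD.cd_pd hf j) j).continuous

lemma int_cl {f : V → ℝ} (hf : Continuous f) (h : ∀ z ∉ closedBall (0 : V) 1, f z = 0) :
    Integrable f :=
  hf.integrable_of_hasCompactSupport (HasCompactSupport.intro (isCompact_closedBall (0 : V) 1) h)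

lemma combine {W v : V → V} (hW : ContDiff ℝ ∞ W) (hv : ContDiff ℝ ∞ v) {Φ : V → ℝ}
    (hΦ : ContDiff ℝ ∞ Φ) (hs : ∀ z ∉ ball (0 : V) 1, Φ z = 0) {h dt : V → ℝ} (c : V)
    (hdt : ∀ z, dt z = h z - ∑ j, c j * pd j Φ z) (hc : Continuous h)
    (hh : ∀ z ∉ closedBall (0 : V) 1, h z = 0) :
    (∫ z, nsq W z * (dt z + lap Φ z)) + ∫ z, nsq W z * adv v Φ z
      = (∫ z, nsq W z * (h z + lap Φ z)) + ∫ z, nsq W z * adv (fun y i => v y i - c i) Φ z := by
  have hn := W612.MD.nsq_cont hW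
  have hp : ∀ j, Continuous (pd j Φ) := fun j => W612.MD.pd_cont hΦ j
  have hl := lap_cont hΦ
  have hvc : ∀ j, Continuous (fun y => v y j) := fun j => (W612.MD.comp_smooth hv j).continuous
  have hdc : Continuous dt := by
    have : dt = fun z => h z - ∑ j, c j * pd j Φ z := funext hdt
    rw [this]
    fun_prop
  have hd0 : ∀ z ∉ closedBall (0 : V) 1, dt z = 0 := by
    intro z hz
    rw [hdt, hh z hz]
    simp [pd_zero_cl hs _ z hz]
  have ha1 : Continuous (adv v Φ) := by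
    unfold adv
    fun_prop
  have ha2 : Continuous (adv (fun y i => v y i - c i) Φ) := by
    unfold adv
    fun_prop
  have hz1 : ∀ z ∉ closedBall (0 : V) 1, adv v Φ z = 0 := by
    intro z hz
    unfold adv
    simp [pd_zero_cl hs _ z hz]
  have hz2 : ∀ z ∉ closedBall (0 : V) 1, adv (fun y i => v y i - c i) Φ z = 0 := by
    intro z hz
    unfold adv
    simp [pd_zero_cl hs _ z hz]
  have hlz := lap_zero_cl hs
  rw [← integral_add, ← integral_add]
  · congr 1
    funext z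
    rw [hdt]
    unfold adv
    simp only [sub_mul, Finset.sum_sub_distrib]
    ring
  · exact int_cl (hn.mul (hc.add hl)) (fun z hz => by simp [hh z hz, hlz z hz])
  · exact int_cl (hn.mul ha2) (fun z hz => by simp [hz2 z hz])
  · exact int_cl (hn.mul (hdc.add hl)) (fun z hz => by simp [hd0 z hz, hlz z hz])
  · exact int_cl (hn.mul ha1) (fun z hz => by simp [hz1 z hz])

lemma heat2 {W : V → V} (hW : ContDiff ℝ ∞ W) {F : V → ℝ} {M : ℝ} (hM : 0 ≤ M) {a : V}
    (ha : a ∈ ball (0 : V) (3 / 8)) (hF : ∀ z ∉ closedBall a (1 / 4), F z = 0)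
    (hb : ∀ z, F z ≤ M) : ∫ z, nsq W z * F z ≤ M * A2 0 (3 / 4) W := by
  have h0 : ∀ z, z ∉ ball (0 : V) (3 / 4) → nsq W z * F z = 0 := by
    intro z h
    rw [hF z, mul_zero]
    intro h1
    apply h
    rw [mem_ball] at *
    rw [mem_closedBall] at h1
    have := dist_triangle z a 0
    linarith
  rw [← setIntegral_eq_integral_of_forall_compl_eq_zero h0]
  unfold A2
  rw [← integral_const_mul]
  have hni : IntegrableOn (fun z => M * nsq W z) (ball (0 : V) (3 / 4)) := by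
    apply Integrable.const_mul
    exact ((W612.MD.nsq_cont hW).continuousOn.integrableOn_compact
      (isCompact_closedBall 0 (3 / 4))).mono_set ball_subset_closedBall
  by_cases hi : IntegrableOn (fun z => nsq W z * F z) (ball (0 : V) (3 / 4))
  · apply setIntegral_mono hi hni
    intro z
    simp only
    rw [mul_comm M]
    exact mul_le_mul_of_nonneg_left (hb z) (W612.MD.nsq_nonneg W z)
  · rw [integral_undef hi]
    exact integral_nonneg fun z => mul_nonneg hM (W612.MD.nsq_nonneg W z)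

lemma dt_cont {f : ℝ → V → ℝ} {b t : ℝ}
    (hf : ContDiffOn ℝ ∞ (fun z : ℝ × V => f z.1 z.2) (Iio b ×ˢ univ)) (ht : t < b) :
    Continuous (fun x => deriv (fun s => f s x) t) := by
  have hopen : IsOpen (Iio b ×ˢ (univ : Set V)) := isOpen_Iio.prod isOpen_univ
  have e : ∀ x, deriv (fun s => f s x) t = fderiv ℝ (fun z : ℝ × V => f z.1 z.2) (t, x) (1, 0) := by
    intro x
    have hmem : ((t, x) : ℝ × V) ∈ Iio b ×ˢ (univ : Set V) := ⟨ht, trivial⟩
    have hd : DifferentiableAt ℝ (fun z : ℝ × V => f z.1 z.2) (t, x) :=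
      ((hf.contDiffAt (hopen.mem_nhds hmem)).differentiableAt (by simp))
    have h1 : HasDerivAt (fun s : ℝ => ((s, x) : ℝ × V)) (1, 0) t :=
      (hasDerivAt_id t).prodMk (hasDerivAt_const t _)
    exact (hd.hasFDerivAt.comp_hasDerivAt t h1).deriv
  simp_rw [e]
  have h2 : ContinuousOn (fderiv ℝ (fun z : ℝ × V => f z.1 z.2)) (Iio b ×ˢ (univ : Set V)) :=
    hf.continuousOn_fderiv_of_isOpen hopen (by simp)
  have h3 : Continuous (fun x : V => fderiv ℝ (fun z : ℝ × V => f z.1 z.2) (t, x)) := by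
    rw [← continuousOn_univ]
    have h4 : ContinuousOn (fun x : V => ((t, x) : ℝ × V)) univ :=
      Continuous.continuousOn (by fun_prop)
    exact h2.comp h4 fun x _ => ⟨ht, trivial⟩
  exact h3.clm_apply continuous_const

end W372.ME
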