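import Pool.Agent.W372.ME.Absorb2
import Pool.Agent.W372.ME.Mov

/-!
The induction step of the second local regularity theorem.
-/

open MeasureTheory Set Metric
open scoped ContDiff

namespace W372.ME

open H459R3.NS W221.NS W612.MD

lemma pk2_term {Λ R G A : ℝ} (hΛ : 0 ≤ Λ) (hG : 0 ≤ G) (hR : 0 ≤ R) (k : ℕ)
    (hA : A ≤ Λ / 8 ^ k) :
    √G * (8 ^ k * A) + G * (√A * (√(2 ^ k) + √(8 ^ k) * (2 ^ k * R)))
      ≤ √G * Λ + G * (√Λ * (√(2 ^ k) * √(1 / 8 ^ k) + 2 ^ k * R)) := by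
  have h8 : (0 : ℝ) < 8 ^ k := by positivity
  have h1 : √A ≤ √Λ * √(1 / 8 ^ k) := by
    rw [← Real.sqrt_mul hΛ, mul_one_div]
    exact Real.sqrt_le_sqrt hA
  have h2 : 8 ^ k * A ≤ Λ := by
    rw [le_div_iff₀ h8] at hA
    linarith
  have h3 : √(8 ^ k) * √(1 / 8 ^ k) = 1 := by
    rw [← Real.sqrt_mul h8.le, mul_one_div_cancel h8.ne', Real.sqrt_one]
  have h4 : √G * (8 ^ k * A) ≤ √G * Λ := mul_le_mul_of_nonneg_left h2 (Real.sqrt_nonneg _)
  have h5 : √A * (√(2 ^ k) + √(8 ^ k) * (2 ^ k * R))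
      ≤ (√Λ * √(1 / 8 ^ k)) * (√(2 ^ k) + √(8 ^ k) * (2 ^ k * R)) :=
    mul_le_mul_of_nonneg_right h1 (by positivity)
  have h6 : (√Λ * √(1 / 8 ^ k)) * (√(2 ^ k) + √(8 ^ k) * (2 ^ k * R))
      = √Λ * (√(2 ^ k) * √(1 / 8 ^ k) + 2 ^ k * R) := by
    calc (√Λ * √(1 / 8 ^ k)) * (√(2 ^ k) + √(8 ^ k) * (2 ^ k * R))
        = √Λ * (√(2 ^ k) * √(1 / 8 ^ k) + (√(8 ^ k) * √(1 / 8 ^ k)) * (2 ^ k * R)) := by ring
      _ = _ := by rw [h3, one_mul]
  rw [h6] at h5
  have h7 := mul_le_mul_of_nonneg_left h5 hG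
  linarith

lemma act {s t : ℝ} {n k : ℕ} (hk : k ≤ n) (hts : t ≤ s) (h : s - rr k ^ 2 < t) :
    2 ^ k * √(rr n ^ 2 + (s - t)) ≤ 2 := by
  have h1 : rr n ^ 2 + (s - t) ≤ (2 * rr k) ^ 2 := by
    have := rr_sq_le hk
    have h2 : 0 < rr k ^ 2 := pow_pos (rr_pos k) 2
    nlinarith
  have h2 : √(rr n ^ 2 + (s - t)) ≤ 2 * rr k := by
    rw [← Real.sqrt_sq (by have := rr_pos k; positivity : 0 ≤ 2 * rr k)]
    exact Real.sqrt_le_sqrt h1
  have h3 : (2 : ℝ) ^ k * (2 * rr k) = 2 := by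
    unfold rr
    rw [one_div, inv_pow]
    field_simp
  calc 2 ^ k * √(rr n ^ 2 + (s - t)) ≤ 2 ^ k * (2 * rr k) :=
        mul_le_mul_of_nonneg_left h2 (by positivity)
    _ = 2 := h3

theorem t_STEP2 (hT : S_TF2) (hE : S_EN2) (hP : S_PK2) (hL : S_L4) (hS : S_TSUM) (hG : S_TSUMG)
    (hC : S_CT) (hM : S_CTM) : S_STEP2 := by
  obtain ⟨M, c, hM1, hc, hTF⟩ := hT
  obtain ⟨CE, hCE, hEN⟩ := hE
  obtain ⟨CP, hCP, hPK⟩ := hP M hM1
  obtain ⟨CL, hCL, hL4⟩ := hL
  obtain ⟨CS, hCS, hTS⟩ := hS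
  obtain ⟨CG, hCG, hTG⟩ := hG
  have hM0 : 0 ≤ M := by linarith
  obtain ⟨C₁, hC₁⟩ : ∃ C₁, C₁ = 2 * (M + 3 * CP + (CP + 3 * CE * √M) ^ 2 + CP * CL * CS
    + 2 * CP * CG) := ⟨_, rfl⟩
  have hC₁pos : 0 < C₁ := by rw [hC₁]; positivity
  refine ⟨8 * C₁ / c, min 1 ((1 / (8 * CE)) ^ 2), by positivity, by positivity, ?_⟩
  intro ε hε hε1' v W G hyp K₀ hK₀ hA Λ hΛ a y s hs hpath n hn hIH
  have hε1 : ε ≤ 1 := hε1'.trans (min_le_left _ _)
  have hCEε : 8 * (CE * √ε) ≤ 1 := by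
    have h1 : √ε ≤ 1 / (8 * CE) := by
      rw [← Real.sqrt_sq (by positivity : 0 ≤ 1 / (8 * CE))]
      exact Real.sqrt_le_sqrt (hε1'.trans (min_le_right _ _))
    rw [le_div_iff₀ (by positivity)] at h1
    linarith
  have hyp' := hyp
  obtain ⟨hvsm, hWsm, hslice, hGi, hGε⟩ := hyp
  obtain ⟨-, δ, hδ, hsδ, hysm, hyd⟩ := hpath
  obtain ⟨φ, hφ⟩ := hTF 0 s n hn
  obtain ⟨s0, hs0⟩ : ∃ s0, s0 = s - rr 2 ^ 2 := ⟨_, rfl⟩
  have hs0' : s0 = s - 1 / 16 := by rw [hs0, rr_two]; norm_num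
  have hs1 := hs.1
  have hs2 := hs.2
  obtain ⟨α, hα⟩ : ∃ α, α = s - 1 / 8 := ⟨_, rfl⟩
  have hα1 : -1 ≤ α := by rw [hα]; linarith
  obtain ⟨β, hβ⟩ : ∃ β, β = min (s + δ) (s + rr n ^ 2) := ⟨_, rfl⟩
  have hsβ : s < β := by
    rw [hβ]
    exact lt_min (by linarith) (by have := pow_pos (rr_pos n) 2; linarith)
  have hβδ : β ≤ s + δ := by rw [hβ]; exact min_le_left _ _
  have hβ0 : β ≤ 0 := by linarith
  have hβn : β ≤ s + rr n ^ 2 := by rw [hβ]; exact min_le_right _ _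
  rw [← hα] at hysm hyd
  have hyball : ∀ t ∈ Ioo α β, y t ∈ ball (0 : V) (3 / 8) := fun t ht =>
    (hyd t ⟨ht.1, ht.2.trans_le hβδ⟩).2
  have hyder : ∀ t ∈ Ioo α β, HasDerivAt y (fun i => v t (y t) i - W t (y t) i) t := fun t ht =>
    (hyd t ⟨ht.1, ht.2.trans_le hβδ⟩).1
  have hycont : ContinuousOn y (Ioo α β) := hysm.continuousOn.mono (Ioo_subset_Ioo_right hβδ)
  obtain ⟨F, hF⟩ : ∃ F : ℝ → V → ℝ, F = fun t z => ∑ k ∈ Finset.Icc 2 n, φ k t z := ⟨_, rfl⟩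
  have hFsm : ContDiffOn ℝ ∞ (fun z : ℝ × V => F z.1 z.2) (Iio (s + rr n ^ 2) ×ˢ univ) := by
    rw [hF]
    exact ContDiffOn.sum fun k _ => hφ.smooth k
  have hFsupp : ∀ t, ∀ z ∉ ball (0 : V) (1 / 4), F t z = 0 := by
    intro t z hz
    rw [hF]
    apply Finset.sum_eq_zero
    intro k hk
    apply hφ.supp k hk t z
    intro h
    exact hz (ball_subset_ball ((rr_le (Finset.mem_Icc.1 hk).1).trans rr_two.le) h)
  obtain ⟨Φ, hΦ⟩ : ∃ Φ : ℝ → V → ℝ, Φ = fun t z => F t (z - y t) := ⟨_, rfl⟩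
  have hΦsm : ContDiffOn ℝ ∞ (fun z : ℝ × V => Φ z.1 z.2) (Ioo α β ×ˢ univ) := by
    rw [hΦ]
    exact smooth_mov hFsm hysm hβn hβδ
  have hmv : ∀ (b z : V) (ρ : ℝ), z ∉ ball b ρ → z - b ∉ ball (0 : V) ρ := by
    intro b z ρ h h'
    apply h
    rw [mem_ball, dist_zero_right] at h'
    rw [mem_ball, dist_eq_norm]
    exact h'
  have hΦsupp : ∀ t, ∀ z ∉ ball (y t) (1 / 4), Φ t z = 0 := by
    intro t z hz
    rw [hΦ]
    exact hFsupp t _ (hmv _ _ _ hz)
  have hΦ1 : ∀ t ∈ Ioo α β, ∀ z ∉ ball (0 : V) 1, Φ t z = 0 := by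
    intro t ht z hz
    apply hΦsupp t z
    intro h
    apply hz
    have h1 := hyball t ht
    rw [mem_ball] at *
    have := dist_triangle z (y t) 0
    linarith
  have hΦpos : ∀ t ≤ s, ∀ z, 0 ≤ Φ t z := by
    intro t ht z
    rw [hΦ, hF]
    exact hφ.pos t ht _
  have hΦslice : ∀ t ∈ Ioo α β, ContDiff ℝ ∞ (Φ t) := fun t ht => slice_smooth hΦsm ht
  have hsubβ : Ioo α β ⊆ Ioo (-1 : ℝ) 0 := Ioo_subset_Ioo hα1 hβ0
  have hWβ : ContDiffOn ℝ ∞ (fun z : ℝ × V => W z.1 z.2) (Ioo α β ×ˢ univ) :=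
    hWsm.mono (prod_mono hsubβ subset_rfl)
  have hvslice : ∀ t ∈ Ioo (-1 : ℝ) 0, ContDiff ℝ ∞ (v t) := fun t ht =>
    slice_smooth hvsm ht
  have hWslice : ∀ t ∈ Ioo (-1 : ℝ) 0, ContDiff ℝ ∞ (W t) := fun t ht =>
    slice_smooth hWsm ht
  have hctm := fun ρ => hM α β ρ W y hWβ hycont
  obtain ⟨-, hct3⟩ := hC α β W hWβ
  obtain ⟨hEc, hDc⟩ := hct3 Φ hΦsm hΦ1
  obtain ⟨E, hEdef⟩ : ∃ E : ℝ → ℝ, E = fun t => ∫ z, nsq (W t) z * Φ t z := ⟨_, rfl⟩
  obtain ⟨D, hDdef⟩ : ∃ D : ℝ → ℝ, D = fun t => ∫ z, gsq (W t) z * Φ t z := ⟨_, rfl⟩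
  rw [← hEdef] at hEc
  rw [← hDdef] at hDc
  have hsub : Icc s0 s ⊆ Ioo α β := by
    intro t ht
    exact ⟨by linarith [ht.1], ht.2.trans_lt hsβ⟩
  have hsub0 : Icc s0 s ⊆ Ioo (-1) 0 := hsub.trans hsubβ
  have hE0 : ∀ t ∈ Icc s0 s, 0 ≤ E t := by
    intro t ht
    rw [hEdef]
    exact integral_nonneg fun z => mul_nonneg (nsq_nonneg _ _) (hΦpos t ht.2 z)
  have hD0 : ∀ t ∈ Icc s0 s, 0 ≤ D t := by
    intro t ht
    rw [hDdef]
    exact integral_nonneg fun z => mul_nonneg (gsq_nonneg _ _) (hΦpos t ht.2 z)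
  have hEs0 : E s0 = 0 := by
    rw [hEdef]
    have : ∀ z, Φ s0 z = 0 := by
      intro z
      rw [hΦ, hF]
      apply Finset.sum_eq_zero
      intro k hk
      apply hφ.suppt k hk
      rw [hs0]
      have := rr_sq_le (Finset.mem_Icc.1 hk).1
      linarith
    simp [this]
  have hG0 : ∀ t ∈ Ioo (-1 : ℝ) 0, 0 ≤ G t := by
    intro t ht
    obtain ⟨P, hsl⟩ := hslice t ht
    exact (B2_nonneg _ _ _).trans hsl.grad
  have hIoc : Ioc s0 s ⊆ Ioo (-1) 0 := Ioc_subset_Icc_self.trans hsub0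
  have hGiI : IntegrableOn G (Ioc s0 s) := hGi.mono_set hIoc
  have hGεI : ∫ t in Ioc s0 s, G t ≤ ε := by
    refine le_trans ?_ hGε
    apply setIntegral_mono_set hGi
    · filter_upwards [ae_restrict_mem measurableSet_Ioo] with x hx using hG0 x hx
    · exact hIoc.eventuallyLE
  obtain ⟨hTi, hTΛ⟩ := hTS Λ s n (fun i t => B2 (y t) (rr i) (W t)) hΛ
    (fun i _ t => B2_nonneg _ _ _) (by
      intro i hi
      rw [Finset.mem_Icc] at hi
      refine ⟨?_, (hIH i hi.1 hi.2).2⟩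
      have h1 : ContinuousOn (fun t => B2 (y t) (rr i) (W t)) (Icc (s - rr i ^ 2) s) := by
        apply (hctm (rr i)).2.mono
        refine subset_trans (Icc_subset_Icc_left ?_) hsub
        rw [hs0]
        have := rr_sq_le hi.1
        linarith
      exact (h1.integrableOn_compact isCompact_Icc).mono_set Ioc_subset_Icc_self)
  rw [← hs0] at hTi hTΛ
  obtain ⟨T, hTdef⟩ : ∃ T : ℝ → ℝ, T = fun t => ∑ k ∈ Finset.Icc 5 n, if s - rr k ^ 2 < t then
      √(1 / 8 ^ k) * √(rr k) * (16 ^ k * (4 ^ k * (Λ / 8 ^ (k - 3)) + B2 (y t) (rr (k - 3)) (W t))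
        + ∑ j ∈ Finset.Ico 3 (k - 2), √(32 ^ j) * √(8 ^ k) *
          (4 ^ k * (Λ / 8 ^ (j - 1)) + B2 (y t) (rr (j - 1)) (W t))) else 0 := ⟨_, rfl⟩
  rw [← hTdef] at hTi
  have hTΛ' : ∫ t in Ioc s0 s, T t ≤ CS * Λ := by rw [hTdef]; exact hTΛ
  have hT0 : ∀ t ∈ Ioc s0 s, 0 ≤ T t := by
    intro t _
    rw [hTdef]
    apply Finset.sum_nonneg
    intro k _
    split_ifs
    · have h1 := B2_nonneg (y t) (rr (k - 3)) (W t)
      have h2 : 0 ≤ ∑ j ∈ Finset.Ico 3 (k - 2), √(32 ^ j) * √(8 ^ k) *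
          (4 ^ k * (Λ / 8 ^ (j - 1)) + B2 (y t) (rr (j - 1)) (W t)) := by
        apply Finset.sum_nonneg
        intro j _
        have h1 := B2_nonneg (y t) (rr (j - 1)) (W t)
        positivity
      positivity
    · exact le_rfl
  have habs : ∫ t in Ioc s0 s, |G t| = ∫ t in Ioc s0 s, G t :=
    setIntegral_congr_fun measurableSet_Ioc fun t ht => abs_of_nonneg (hG0 t (hIoc ht))
  obtain ⟨hUi, hUΛ⟩ := hTG Λ s ε n (fun t => |G t|) hΛ hε (fun t => abs_nonneg _)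
    (by rw [← hs0]; exact hGiI.abs) (by rw [← hs0, habs]; exact hGεI)
  rw [← hs0] at hUi hUΛ
  obtain ⟨U, hUdef⟩ : ∃ U : ℝ → ℝ, U = fun t => ∑ k ∈ Finset.Icc 5 n, if s - rr k ^ 2 < t then
      √|G t| * Λ + |G t| * (√Λ * (√(2 ^ k) * √(1 / 8 ^ k) + 2 ^ k * √(rr n ^ 2 + (s - t))))
        else 0 := ⟨_, rfl⟩
  rw [← hUdef] at hUi
  have hUΛ' : ∫ t in Ioc s0 s, U t ≤ CG * (Λ * √ε + √Λ * ε) := by rw [hUdef]; exact hUΛ
  have hU0 : ∀ t ∈ Ioc s0 s, 0 ≤ U t := by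
    intro t _
    rw [hUdef]
    apply Finset.sum_nonneg
    intro k _
    split_ifs
    · have := abs_nonneg (G t)
      positivity
    · exact le_rfl
  have hpt : ∀ t ∈ Ioo s0 s, ∃ E' : ℝ, HasDerivAt E E' t ∧ E' ≤ -2 * D t + M * (K₀ * ε)
      + CP * (G t * √(K₀ * ε) + √(G t) * (K₀ * ε) + G t * √(E t) + CL * √Λ * T t + U t)
      + CE * (√(G t) * E t + (√(G t) + G t) * (√M * √(E t))) := by
    intro t ht
    have ht1 : t ∈ Icc s0 s := Ioo_subset_Icc_self ht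
    have htβ := hsub ht1
    have ht0 := hsub0 ht1
    have hvt := hvslice t ht0
    have hWt := hWslice t ht0
    have hyt := hyball t htβ
    have htA : t ∈ Ioo (-9 / 16 : ℝ) 0 := ⟨by linarith [ht.1], ht0.2⟩
    have htn : t < s + rr n ^ 2 := htβ.2.trans_le hβn
    obtain ⟨P, hsl⟩ := hslice t ht0
    obtain ⟨E', hE', hle⟩ := hEN v W G ε hyp' α β hα1 hβ0 Φ hΦsm hΦ1 t htβ (hΦpos t ht1.2) P hsl
    refine ⟨E', by rw [hEdef]; exact hE', hle.trans ?_⟩
    have hcomb := combine hWt hvt (hΦslice t htβ) (hΦ1 t htβ)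
      (h := fun z => deriv (fun s' => F s' (z - y t)) t) (dt := fun z => deriv (fun s' => Φ s' z) t)
      (fun i => v t (y t) i - W t (y t) i) (by
        intro z
        simp only [hΦ]
        rw [deriv_mov hFsm htn (hyder t htβ)]
        congr 1
        exact Finset.sum_congr rfl fun j _ => by rw [pd_mov])
      ((dt_cont hFsm htn).comp (continuous_id.sub continuous_const)) (by
        intro z hz
        have h1 : z - y t ∉ ball (0 : V) (1 / 4) := by
          apply hmv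
          intro h
          apply hz
          rw [mem_ball] at *
          rw [mem_closedBall]
          have := dist_triangle z (y t) 0
          linarith
        have h2 : (fun s' => F s' (z - y t)) = fun _ => 0 := funext fun s' => hFsupp s' _ h1
        simp only [h2, deriv_const])
    have hH := heat2 hWt hM0 hyt
      (F := fun z => deriv (fun s' => F s' (z - y t)) t + lap (Φ t) z) (by
        intro z hz
        have h1 : z - y t ∉ ball (0 : V) (1 / 4) :=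
          hmv _ _ _ fun h => hz (ball_subset_closedBall h)
        have h2 : (fun s' => F s' (z - y t)) = fun _ => 0 := funext fun s' => hFsupp s' _ h1
        simp only [h2, deriv_const, lap_zero_cl (hΦsupp t) z hz, add_zero]) (by
        intro z
        have h1 := hφ.heat t ht1.2 (z - y t)
        have h2 : lap (Φ t) z = lap (fun x => ∑ k ∈ Finset.Icc 2 n, φ k t x) (z - y t) := by
          rw [hΦ, hF]
          exact lap_mov (fun x => ∑ k ∈ Finset.Icc 2 n, φ k t x) (y t) z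
        simp only [h2, hF]
        exact h1)
    have hH' : M * A2 0 (3 / 4) (W t) ≤ M * (K₀ * ε) :=
      mul_le_mul_of_nonneg_left (hA t htA) hM0
    have hsum : ∀ z, ∑ k ∈ (Finset.Icc 2 n).filter (fun k => s - rr k ^ 2 < t), φ k t (z - y t)
        = Φ t z := by
      intro z
      rw [hΦ, hF]
      apply Finset.sum_filter_of_ne
      intro k hk hne
      by_contra hcon
      exact hne (hφ.suppt k hk t (not_lt.1 hcon) _)
    have hfil : ((Finset.Icc 2 n).filter (fun k => s - rr k ^ 2 < t)).filter (fun k => 5 ≤ k)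
        = (Finset.Icc 5 n).filter (fun k => s - rr k ^ 2 < t) := by
      ext k
      simp only [Finset.mem_filter, Finset.mem_Icc]
      constructor
      · rintro ⟨⟨⟨h1, h2⟩, h3⟩, h4⟩
        exact ⟨⟨h4, h2⟩, h3⟩
      · rintro ⟨⟨h1, h2⟩, h3⟩
        exact ⟨⟨⟨by omega, h2⟩, h3⟩, h1⟩
    have hsum5 : ∀ z, ∑ k ∈ (Finset.Icc 5 n).filter (fun k => s - rr k ^ 2 < t), φ k t (z - y t)
        = ∑ k ∈ Finset.Icc 5 n, φ k t (z - y t) := by
      intro z
      apply Finset.sum_filter_of_ne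
      intro k hk hne
      rw [Finset.mem_Icc] at hk
      by_contra hcon
      exact hne (hφ.suppt k (Finset.mem_Icc.2 ⟨by omega, hk.2⟩) t (not_lt.1 hcon) _)
    have hintΦ : ∫ z, Φ t z ≤ M := by
      have h1 : ∫ z, Φ t z = ∫ z, F t z := by
        rw [hΦ]
        exact integral_sub_right_eq_self (F t) (y t)
      rw [h1, hF]
      exact hφ.int t ht1.2
    have hPKt := hPK (v t) (W t) (fun x i => deriv (fun s => W s x i) t) P (G t) hsl (y t) hyt
      ((Finset.Icc 2 n).filter (fun k => s - rr k ^ 2 < t)) (√(rr n ^ 2 + (s - t)))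
      (fun k z => φ k t (z - y t)) (Real.sqrt_nonneg _) (by
        intro k hk
        rw [Finset.mem_filter] at hk
        have hk1 := hk.1
        have hk2 := Finset.mem_Icc.1 hk1
        refine ⟨hk2.1, act hk2.2 ht1.2 hk.2, ?_, ?_, ?_, ?_, ?_⟩
        · have h1 : ContDiff ℝ ∞ (φ k t) := slice_smooth (hφ.smooth k) htn
          exact h1.comp (contDiff_id.sub contDiff_const)
        · intro z hz
          exact hφ.supp k hk1 t _ (hmv _ _ _ hz)
        · intro z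
          exact hφ.size k hk1 t ht1.2 _
        · intro z
          exact hφ.size2 k hk1 t ht1.2 _
        · intro z i
          rw [pd_mov]
          exact hφ.grad k hk1 t ht1.2 _ i)
      (by intro z; rw [hsum]; exact hΦpos t ht1.2 z)
      (by
        intro z
        rw [hfil, hsum, hsum5, hΦ, hF]
        exact hφ.out t ht1.2 _)
      (by
        simp only [hsum]
        exact hintΦ)
    simp only [hsum] at hPKt
    rw [hfil] at hPKt
    have hGt := hG0 t ht0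
    have hPS : ∑ k ∈ (Finset.Icc 5 n).filter (fun k => s - rr k ^ 2 < t),
        (√(A2 (y t) (rr k) (W t)) * PS (y t) (W t) k
          + √(G t) * (8 ^ k * A2 (y t) (rr k) (W t))
          + G t * (√(A2 (y t) (rr k) (W t)) * (√(2 ^ k) + √(8 ^ k)
            * (2 ^ k * √(rr n ^ 2 + (s - t)))))) ≤ CL * √Λ * T t + U t := by
      rw [hTdef, hUdef]
      simp only
      rw [← Finset.sum_filter, ← Finset.sum_filter, Finset.mul_sum, ← Finset.sum_add_distrib]
      apply Finset.sum_le_sum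
      intro k hk
      rw [Finset.mem_filter, Finset.mem_Icc] at hk
      have hAk : ∀ i, 2 ≤ i → i ≤ k → A2 (y t) (rr i) (W t) ≤ Λ / 8 ^ i := by
        intro i hi hik
        refine (hIH i hi (hik.trans hk.1.2)).1 t ?_ ht1.2
        have := rr_sq_le hik
        linarith [hk.2]
      have h1 := pk_term hCL hL4 hΛ hWt hk.1.1 hAk
      have h2 := pk2_term hΛ hGt (Real.sqrt_nonneg (rr n ^ 2 + (s - t))) k
        (hAk k (by omega) le_rfl)
      rw [abs_of_nonneg hGt]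
      linarith
    have hsq : √(A2 0 (3 / 4) (W t)) ≤ √(K₀ * ε) := Real.sqrt_le_sqrt (hA t htA)
    have hEt : ∫ z, nsq (W t) z * Φ t z = E t := by rw [hEdef]
    have hF2 : CP * (G t * √(A2 0 (3 / 4) (W t)) + √(G t) * A2 0 (3 / 4) (W t)
          + G t * √(∫ z, nsq (W t) z * Φ t z)
          + ∑ k ∈ (Finset.Icc 5 n).filter (fun k => s - rr k ^ 2 < t),
        (√(A2 (y t) (rr k) (W t)) * PS (y t) (W t) k
          + √(G t) * (8 ^ k * A2 (y t) (rr k) (W t))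
          + G t * (√(A2 (y t) (rr k) (W t)) * (√(2 ^ k) + √(8 ^ k)
            * (2 ^ k * √(rr n ^ 2 + (s - t)))))))
        ≤ CP * (G t * √(K₀ * ε) + √(G t) * (K₀ * ε) + G t * √(E t) + CL * √Λ * T t + U t) := by
      apply mul_le_mul_of_nonneg_left _ hCP.le
      have h1 := mul_le_mul_of_nonneg_left hsq hGt
      have h2 := mul_le_mul_of_nonneg_left (hA t htA) (Real.sqrt_nonneg (G t))
      rw [hEt]
      linarith
    have hF3 := (le_abs_self _).trans (hPKt.trans hF2)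
    have hF4 : (fun y' => Φ t y') = Φ t := rfl
    rw [hF4] at hF3
    have hcs := cs_w hWt (hΦslice t htβ).continuous (hΦpos t ht1.2) (hΦ1 t htβ)
    have hcs2 : ∫ z, √(nsq (W t) z) * Φ t z ≤ √M * √(E t) := by
      refine hcs.trans ?_
      rw [hEt]
      exact mul_le_mul_of_nonneg_right (Real.sqrt_le_sqrt hintΦ) (Real.sqrt_nonneg _)
    have hCEt : CE * (√(G t) * (∫ z, nsq (W t) z * Φ t z)
          + (√(G t) + G t) * ∫ z, √(nsq (W t) z) * Φ t z)
        ≤ CE * (√(G t) * E t + (√(G t) + G t) * (√M * √(E t))) := by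
      apply mul_le_mul_of_nonneg_left _ hCE.le
      rw [hEt]
      have h1 : 0 ≤ √(G t) + G t := add_nonneg (Real.sqrt_nonneg _) hGt
      have h2 := mul_le_mul_of_nonneg_left hcs2 h1
      linarith
    have hDt : ∫ z, gsq (W t) z * Φ t z = D t := by rw [hDdef]
    rw [hDt]
    linarith
  have hmain := absorb2 (E := E) (E' := deriv E) (D := D) (G := G) (T := T) (U := U)
    (s0 := s0) (s1 := s) (ε := ε) (K := K₀) (CP := CP) (CL := CL) (CS := CS) (CG := CG)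
    (CE := CE) (M := M) (Λ := Λ)
    (by rw [hs0']; linarith) (by rw [hs0']; linarith) hε hε1 hCEε hK₀ hCP hCL hCS hCG hCE hM0 hΛ
    (hEc.mono hsub) (by
      intro t ht
      obtain ⟨E', h1, -⟩ := hpt t ht
      exact h1.differentiableAt.hasDerivAt)
    (hDc.mono hsub) hD0 hE0 hEs0 hGiI (fun t ht => hG0 t (hIoc ht)) hGεI
    hTi hT0 hTΛ' hUi hU0 hUΛ' (by
      intro t ht
      obtain ⟨E', h1, h2⟩ := hpt t ht
      rw [h1.deriv]
      exact h2)
  rw [← hC₁] at hmain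
  obtain ⟨X, hX⟩ : ∃ X, X = (1 + K₀) * ε + Λ * √Λ + Λ * √ε := ⟨_, rfl⟩
  rw [← hX] at hmain
  rw [← hX]
  have hc8 : 0 < c * 8 ^ n := by positivity
  have hsn : s0 ≤ s - rr (n + 1) ^ 2 := by
    rw [hs0]
    have := rr_sq_le (show 2 ≤ n + 1 by omega)
    linarith
  have hval : 8 * C₁ / c * X / 8 ^ (n + 1) = C₁ * X / (c * 8 ^ n) := by
    rw [pow_succ]
    field_simp
  have hDii : ∀ α β' : ℝ, s0 ≤ α → α ≤ β' → β' ≤ s → IntervalIntegrable D volume α β' := by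
    intro α β' h1 h2 h3
    apply ContinuousOn.intervalIntegrable
    rw [uIcc_of_le h2]
    exact (hDc.mono hsub).mono (Icc_subset_Icc h1 h3)
  have hlow : ∀ t, s - rr (n + 1) ^ 2 < t → t ≤ s → ∀ z ∈ ball (y t) (rr (n + 1)),
      c * 8 ^ n ≤ Φ t z := by
    intro t h1 h2 z hz
    rw [hΦ, hF]
    apply hφ.low t h1 h2
    rw [mem_ball, dist_zero_right]
    rw [mem_ball, dist_eq_norm] at hz
    exact hz
  refine ⟨?_, ?_⟩
  · intro t ht1 ht2
    rw [hval, le_div_iff₀ hc8]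
    have ht : t ∈ Icc s0 s := ⟨hsn.trans ht1.le, ht2⟩
    have h1 := hmain t ht
    have h2 : 0 ≤ ∫ x in s0..t, D x :=
      intervalIntegral.integral_nonneg ht.1 fun u hu => hD0 u ⟨hu.1, hu.2.trans ht.2⟩
    have h3 := low_term (nsq_cont (hWslice t (hsub0 ht))) (nsq_nonneg (W t))
      (hΦslice t (hsub ht)).continuous (hΦpos t ht2) (hΦ1 t (hsub ht)) (a := y t)
      (ρ := rr (n + 1)) (κ := c * 8 ^ n) (hlow t ht1 ht2)
    have h4 : A2 (y t) (rr (n + 1)) (W t) * (c * 8 ^ n) ≤ E t := by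
      rw [hEdef, mul_comm]
      exact h3
    linarith
  · rw [hval, le_div_iff₀ hc8]
    have hle : s - rr (n + 1) ^ 2 ≤ s := by
      have := pow_pos (rr_pos (n + 1)) 2
      linarith
    have h1 := hmain s ⟨by rw [hs0']; linarith, le_rfl⟩
    have h2 := hE0 s ⟨by rw [hs0']; linarith, le_rfl⟩
    have h3 : ∫ t in Ioc (s - rr (n + 1) ^ 2) s, B2 (y t) (rr (n + 1)) (W t) * (c * 8 ^ n)
        ≤ ∫ t in Ioc (s - rr (n + 1) ^ 2) s, D t := by
      apply setIntegral_mono_on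
      · apply Integrable.mul_const
        have h5 : ContinuousOn (fun t => B2 (y t) (rr (n + 1)) (W t))
            (Icc (s - rr (n + 1) ^ 2) s) := by
          apply (hctm (rr (n + 1))).2.mono
          exact subset_trans (Icc_subset_Icc_left hsn) hsub
        exact (h5.integrableOn_compact isCompact_Icc).mono_set Ioc_subset_Icc_self
      · exact (intervalIntegrable_iff_integrableOn_Ioc_of_le hle).1 (hDii _ _ hsn hle le_rfl)
      · exact measurableSet_Ioc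
      · intro t ht
        have ht' : t ∈ Icc s0 s := ⟨hsn.trans ht.1.le, ht.2⟩
        have h3 := low_term (gsq_cont (hWslice t (hsub0 ht'))) (gsq_nonneg (W t))
          (hΦslice t (hsub ht')).continuous (hΦpos t ht.2) (hΦ1 t (hsub ht')) (a := y t)
          (ρ := rr (n + 1)) (κ := c * 8 ^ n) (hlow t ht.1 ht.2)
        rw [hDdef, mul_comm]
        exact h3
    rw [integral_mul_const, ← intervalIntegral.integral_of_le hle] at h3
    rw [← intervalIntegral.integral_of_le hle] at h3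
    have h6 := intervalIntegral.integral_add_adjacent_intervals
      (hDii s0 (s - rr (n + 1) ^ 2) le_rfl hsn hle) (hDii _ s hsn hle le_rfl)
    have h7 : 0 ≤ ∫ x in s0..(s - rr (n + 1) ^ 2), D x :=
      intervalIntegral.integral_nonneg hsn fun u hu => hD0 u ⟨hu.1, hu.2.trans hle⟩
    have h8 : 0 ≤ ∫ x in (s - rr (n + 1) ^ 2)..s, D x :=
      intervalIntegral.integral_nonneg hle fun u hu => hD0 u ⟨hsn.trans hu.1, hu.2⟩
    rw [← intervalIntegral.integral_of_le hle]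
    linarith

end W372.ME
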