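import Pool.Agent.W612.MD.Absorb

/-!
The real variable part of the second induction step.
-/

open MeasureTheory Set

namespace W372.ME

lemma scal {ε K CP CL CS CG CE M Λ S I c0 c1 : ℝ} (hε : 0 < ε) (hε1 : ε ≤ 1)
    (hCEε : 8 * (CE * √ε) ≤ 1) (hK : 0 ≤ K) (hCP : 0 < CP) (hCL : 0 < CL) (hCS : 0 < CS)
    (hCG : 0 < CG) (hCE : 0 < CE) (hM : 0 ≤ M) (hΛ : 0 ≤ Λ) (hS0 : 0 ≤ S)
    (hc0 : c0 = M * (K * ε) + CP * (√ε * (K * ε)) + CE * (√ε * S) + CE * (√ε * (√M * √S)))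
    (hc1 : c1 = CP * (√(K * ε) + K * ε / √ε + √S)
      + CE * (S / √ε + √M * √S / √ε + √M * √S))
    (hSle : S ≤ I) (hval : I ≤ c0 + ε * c1 + CS * Λ * (CP * (CL * √Λ))
      + CG * (Λ * √ε + √Λ * ε) * CP) :
    I ≤ 2 * (M + 3 * CP + (CP + 3 * CE * √M) ^ 2 + CP * CL * CS + 2 * CP * CG)
        * ((1 + K) * ε + Λ * √Λ + Λ * √ε) := by
  have hsε : 0 < √ε := Real.sqrt_pos.2 hε
  obtain ⟨x, hx⟩ : ∃ x, x = √ε := ⟨_, rfl⟩
  have hx0 : 0 < x := hx ▸ hsε
  have hx2 : x ^ 2 = ε := by rw [hx]; exact Real.sq_sqrt hε.le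
  have hx1 : x ≤ 1 := by rw [hx]; exact Real.sqrt_le_one.2 hε1
  obtain ⟨w, hw⟩ : ∃ w, w = √S := ⟨_, rfl⟩
  have hw0 : 0 ≤ w := hw ▸ Real.sqrt_nonneg _
  have hw2 : w ^ 2 = S := by rw [hw]; exact Real.sq_sqrt hS0
  obtain ⟨l, hl⟩ : ∃ l, l = √Λ := ⟨_, rfl⟩
  have hl0 : 0 ≤ l := hl ▸ Real.sqrt_nonneg _
  have hl2 : l ^ 2 = Λ := by rw [hl]; exact Real.sq_sqrt hΛ
  obtain ⟨m, hm⟩ : ∃ m, m = √M := ⟨_, rfl⟩
  have hm0 : 0 ≤ m := hm ▸ Real.sqrt_nonneg _
  have y0 : c0 + ε * c1 = M * (K * ε) + 2 * (CP * (x * (K * ε))) + CP * (ε * √(K * ε))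
      + 2 * (CE * x) * S + (CP * ε + CE * m * (2 * x + ε)) * w := by
    rw [hc0, hc1, ← hx, ← hw, ← hm, ← hx2]
    field_simp
    ring
  have y1 : (CP * ε + CE * m * (2 * x + ε)) * w ≤ S / 4 + (CP + 3 * CE * m) ^ 2 * ε := by
    have a1 : CP * ε + CE * m * (2 * x + ε) ≤ (CP + 3 * CE * m) * x := by
      have b1 : ε ≤ x := by
        rw [← hx2, pow_two]
        exact mul_le_of_le_one_left hx0.le hx1
      have b2 : CP * ε ≤ CP * x := mul_le_mul_of_nonneg_left b1 hCP.le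
      have b3 : CE * m * (2 * x + ε) ≤ CE * m * (3 * x) :=
        mul_le_mul_of_nonneg_left (by linarith) (by positivity)
      calc _ ≤ CP * x + CE * m * (3 * x) := by linarith
        _ = _ := by ring
    have a2 := mul_le_mul_of_nonneg_right a1 hw0
    have a3 := sq_nonneg (w / 2 - (CP + 3 * CE * m) * x)
    have a4 : (w / 2 - (CP + 3 * CE * m) * x) ^ 2
        = w ^ 2 / 4 - (CP + 3 * CE * m) * x * w + (CP + 3 * CE * m) ^ 2 * x ^ 2 := by ring
    rw [a4, hw2, hx2] at a3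
    linarith
  have y2 : ε * √(K * ε) ≤ (1 + K) * ε := by
    have a1 : √(K * ε) ≤ 1 + K := by
      apply Real.sqrt_le_iff.2 ⟨by linarith, ?_⟩
      have a3 : K * ε ≤ K := mul_le_of_le_one_right hK hε1
      have a4 : (1 + K) ^ 2 = 1 + 2 * K + K ^ 2 := by ring
      have a5 := sq_nonneg K
      linarith
    rw [mul_comm]
    exact mul_le_mul_of_nonneg_right a1 hε.le
  have y3 : 2 * (CE * x) * S ≤ S / 4 := by
    have a1 : 2 * (CE * x) ≤ 1 / 4 := by rw [hx]; linarith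
    have a2 := mul_le_mul_of_nonneg_right a1 hS0
    linarith
  have y4 : l * ε ≤ Λ * x + ε := by
    rw [← hx2, ← hl2]
    rcases le_total l 1 with h | h
    · have h1 : l * x ^ 2 ≤ x ^ 2 := mul_le_of_le_one_left (sq_nonneg x) h
      have h2 : 0 ≤ l ^ 2 * x := by positivity
      linarith
    · have h1 : l * x ^ 2 ≤ l ^ 2 * x := by
        have h3 : x ^ 2 ≤ x := by
          rw [pow_two]
          exact mul_le_of_le_one_left hx0.le hx1
        have h4 : l ≤ l ^ 2 := by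
          rw [pow_two]
          exact le_mul_of_one_le_left hl0 h
        exact mul_le_mul h4 h3 (sq_nonneg x) (sq_nonneg l)
      have h2 : 0 ≤ x ^ 2 := sq_nonneg x
      linarith
  have y5 : x * (K * ε) ≤ K * ε := mul_le_of_le_one_left (by positivity) hx1
  obtain ⟨a, ha⟩ : ∃ a, a = (CP + 3 * CE * m) ^ 2 := ⟨_, rfl⟩
  have ha0 : 0 ≤ a := ha ▸ sq_nonneg _
  have y6 : I ≤ (M + 3 * CP + a + CP * CL * CS + 2 * CP * CG)
      * ((1 + K) * ε + Λ * l + Λ * x) + S / 2 := by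
    rw [y0] at hval
    rw [← hx, ← hl] at hval
    rw [← ha] at y1
    have b0 : 0 ≤ Λ * l := by positivity
    have b0' : 0 ≤ Λ * x := by positivity
    have b0'' : 0 ≤ (1 + K) * ε := by positivity
    have bK : K * ε ≤ (1 + K) * ε := mul_le_mul_of_nonneg_right (by linarith) hε.le
    have bK1 : ε ≤ (1 + K) * ε := le_mul_of_one_le_left hε.le (by linarith)
    have b1 : M * (K * ε) ≤ M * ((1 + K) * ε) := mul_le_mul_of_nonneg_left bK hM
    have b2 : CP * (x * (K * ε)) ≤ CP * ((1 + K) * ε) :=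
      mul_le_mul_of_nonneg_left (y5.trans bK) hCP.le
    have b3 : CP * (ε * √(K * ε)) ≤ CP * ((1 + K) * ε) := mul_le_mul_of_nonneg_left y2 hCP.le
    have b4 : a * ε ≤ a * ((1 + K) * ε) := mul_le_mul_of_nonneg_left bK1 ha0
    have b5 : CG * (Λ * x + l * ε) * CP ≤ 2 * CP * CG * (Λ * x) + 2 * CP * CG * ((1 + K) * ε) := by
      have e1 : Λ * x + l * ε ≤ 2 * (Λ * x) + 2 * ((1 + K) * ε) := by linarith
      calc CG * (Λ * x + l * ε) * CP = (CP * CG) * (Λ * x + l * ε) := by ring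
        _ ≤ (CP * CG) * (2 * (Λ * x) + 2 * ((1 + K) * ε)) :=
          mul_le_mul_of_nonneg_left e1 (by positivity)
        _ = _ := by ring
    have c1' : 0 ≤ (M + 3 * CP + a) * (Λ * l + Λ * x) := by positivity
    have c2' : 0 ≤ CP * CL * CS * ((1 + K) * ε + Λ * x) := by positivity
    have c3' : 0 ≤ 2 * CP * CG * (Λ * l) := by positivity
    have e2 : (M + 3 * CP + a + CP * CL * CS + 2 * CP * CG) * ((1 + K) * ε + Λ * l + Λ * x)
        = M * ((1 + K) * ε) + 3 * (CP * ((1 + K) * ε)) + a * ((1 + K) * ε)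
          + (M + 3 * CP + a) * (Λ * l + Λ * x) + CP * CL * CS * ((1 + K) * ε + Λ * x)
          + CP * CL * CS * (Λ * l) + 2 * CP * CG * (Λ * l) + (2 * CP * CG * (Λ * x)
          + 2 * CP * CG * ((1 + K) * ε)) := by ring
    have e3 : CS * Λ * (CP * (CL * l)) = CP * CL * CS * (Λ * l) := by ring
    rw [e3] at hval
    rw [e2]
    linarith
  rw [← hx, ← hl, ← hm, ← ha]
  have a10 : 2 * (M + 3 * CP + a + CP * CL * CS + 2 * CP * CG)
      * ((1 + K) * ε + Λ * l + Λ * x)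
    = 2 * ((M + 3 * CP + a + CP * CL * CS + 2 * CP * CG)
      * ((1 + K) * ε + Λ * l + Λ * x)) := by ring
  rw [a10]
  linarith

lemma absorb2 {E E' D G T U : ℝ → ℝ} {s0 s1 ε K CP CL CS CG CE M Λ : ℝ} (h01 : s0 ≤ s1)
    (hlen : s1 - s0 ≤ 1) (hε : 0 < ε) (hε1 : ε ≤ 1) (hCEε : 8 * (CE * √ε) ≤ 1) (hK : 0 ≤ K)
    (hCP : 0 < CP) (hCL : 0 < CL) (hCS : 0 < CS) (hCG : 0 < CG) (hCE : 0 < CE) (hM : 0 ≤ M)
    (hΛ : 0 ≤ Λ)
    (hEc : ContinuousOn E (Icc s0 s1)) (hE' : ∀ t ∈ Ioo s0 s1, HasDerivAt E (E' t) t)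
    (hDc : ContinuousOn D (Icc s0 s1)) (hD : ∀ t ∈ Icc s0 s1, 0 ≤ D t)
    (hE : ∀ t ∈ Icc s0 s1, 0 ≤ E t) (hE0 : E s0 = 0)
    (hGi : IntegrableOn G (Ioc s0 s1)) (hG : ∀ t ∈ Ioc s0 s1, 0 ≤ G t)
    (hGε : ∫ t in Ioc s0 s1, G t ≤ ε)
    (hTi : IntegrableOn T (Ioc s0 s1)) (hT : ∀ t ∈ Ioc s0 s1, 0 ≤ T t)
    (hTΛ : ∫ t in Ioc s0 s1, T t ≤ CS * Λ)
    (hUi : IntegrableOn U (Ioc s0 s1)) (hU : ∀ t ∈ Ioc s0 s1, 0 ≤ U t)
    (hUΛ : ∫ t in Ioc s0 s1, U t ≤ CG * (Λ * √ε + √Λ * ε))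
    (hineq : ∀ t ∈ Ioo s0 s1, E' t ≤ -2 * D t + M * (K * ε)
      + CP * (G t * √(K * ε) + √(G t) * (K * ε) + G t * √(E t) + CL * √Λ * T t + U t)
      + CE * (√(G t) * E t + (√(G t) + G t) * (√M * √(E t)))) :
    ∀ t ∈ Icc s0 s1, E t + 2 * ∫ x in s0..t, D x
      ≤ 2 * (M + 3 * CP + (CP + 3 * CE * √M) ^ 2 + CP * CL * CS + 2 * CP * CG)
        * ((1 + K) * ε + Λ * √Λ + Λ * √ε) := by
  obtain ⟨tm, htm, hmax⟩ := isCompact_Icc.exists_isMaxOn (nonempty_Icc.2 h01) hEc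
  obtain ⟨S, hS⟩ : ∃ S, S = E tm := ⟨_, rfl⟩
  have hS0 : 0 ≤ S := hS ▸ hE tm htm
  have hmax' : ∀ t ∈ Icc s0 s1, E t ≤ S := fun t ht => hS ▸ hmax ht
  have hsε : 0 < √ε := Real.sqrt_pos.2 hε
  obtain ⟨c0, hc0⟩ : ∃ c0, c0 = M * (K * ε) + CP * (√ε * (K * ε)) + CE * (√ε * S)
    + CE * (√ε * (√M * √S)) := ⟨_, rfl⟩
  obtain ⟨c1, hc1⟩ : ∃ c1, c1 = CP * (√(K * ε) + K * ε / √ε + √S)
    + CE * (S / √ε + √M * √S / √ε + √M * √S) := ⟨_, rfl⟩
  have hc00 : 0 ≤ c0 := by rw [hc0]; positivity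
  have hc10 : 0 ≤ c1 := by rw [hc1]; positivity
  obtain ⟨g, hg⟩ : ∃ g : ℝ → ℝ, g = fun t => c0 + G t * c1 + T t * (CP * (CL * √Λ)) + U t * CP :=
    ⟨_, rfl⟩
  have hc : ∀ c : ℝ, IntegrableOn (fun _ : ℝ => c) (Ioc s0 s1) := fun c =>
      integrableOn_const (by simp)
  have hgi : IntegrableOn g (Ioc s0 s1) := by
    rw [hg]
    exact (((hc _).add (hGi.mul_const _)).add (hTi.mul_const _)).add (hUi.mul_const _)
  have hg0 : ∀ t ∈ Ioc s0 s1, 0 ≤ g t := by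
    intro t ht
    have h1 := hG t ht
    have h2 := hT t ht
    have h3 := hU t ht
    rw [hg]
    positivity
  have hkey : ∀ t ∈ Icc s0 s1, E t + 2 * ∫ x in s0..t, D x ≤ ∫ x in Ioc s0 s1, g x := by
    intro t ht
    have hDi : IntervalIntegrable D volume s0 t := by
      apply ContinuousOn.intervalIntegrable
      rw [uIcc_of_le ht.1]
      exact hDc.mono (Icc_subset_Icc_right ht.2)
    have hgt : IntegrableOn g (Ioc s0 t) := hgi.mono_set (Ioc_subset_Ioc_right ht.2)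
    have hgI : IntervalIntegrable g volume s0 t :=
      (intervalIntegrable_iff_integrableOn_Ioc_of_le ht.1).2 hgt
    have hφi : IntervalIntegrable (fun x => -2 * D x + g x) volume s0 t :=
      (hDi.const_mul _).add hgI
    have h1 := intervalIntegral.sub_le_integral_of_hasDeriv_right_of_le (g := E) (g' := E')
      (φ := fun x => -2 * D x + g x) ht.1 (hEc.mono (Icc_subset_Icc_right ht.2))
      (fun x hx => (hE' x ⟨hx.1, hx.2.trans_le ht.2⟩).hasDerivWithinAt)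
      (by
        rw [integrableOn_Icc_iff_integrableOn_Ioc]
        exact (intervalIntegrable_iff_integrableOn_Ioc_of_le ht.1).1 hφi)
      (by
        intro x hx
        have hx' : x ∈ Ioo s0 s1 := ⟨hx.1, hx.2.trans_le ht.2⟩
        refine (hineq x hx').trans ?_
        rw [hg]
        have hG0 := hG x ⟨hx'.1, hx'.2.le⟩
        have hT0 := hT x ⟨hx'.1, hx'.2.le⟩
        have hU0 := hU x ⟨hx'.1, hx'.2.le⟩
        have h2 : √(G x) ≤ √ε + G x / √ε := W612.MD.sqrt_le_aux hε hG0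
        have h3 : √(E x) ≤ √S := Real.sqrt_le_sqrt (hmax' x ⟨hx'.1.le, hx'.2.le⟩)
        have h3' : E x ≤ S := hmax' x ⟨hx'.1.le, hx'.2.le⟩
        have h3'' : 0 ≤ E x := hE x ⟨hx'.1.le, hx'.2.le⟩
        have h2' : 0 ≤ √ε + G x / √ε := by positivity
        have h4 : √(G x) * (K * ε) ≤ (√ε + G x / √ε) * (K * ε) :=
          mul_le_mul_of_nonneg_right h2 (by positivity)
        have h5 : G x * √(E x) ≤ G x * √S := mul_le_mul_of_nonneg_left h3 hG0
        have h6 : √(G x) * E x ≤ (√ε + G x / √ε) * S :=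
          mul_le_mul h2 h3' h3'' h2'
        have h7 : (√(G x) + G x) * (√M * √(E x)) ≤ (√ε + G x / √ε + G x) * (√M * √S) :=
          mul_le_mul (by linarith) (mul_le_mul_of_nonneg_left h3 (Real.sqrt_nonneg _))
            (by positivity) (by positivity)
        have h8 : CP * (G x * √(K * ε) + √(G x) * (K * ε) + G x * √(E x) + CL * √Λ * T x + U x)
            ≤ CP * (G x * √(K * ε) + (√ε + G x / √ε) * (K * ε) + G x * √S + CL * √Λ * T x
              + U x) :=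
          mul_le_mul_of_nonneg_left (by linarith) hCP.le
        have h9 : CE * (√(G x) * E x + (√(G x) + G x) * (√M * √(E x)))
            ≤ CE * ((√ε + G x / √ε) * S + (√ε + G x / √ε + G x) * (√M * √S)) :=
          mul_le_mul_of_nonneg_left (by linarith) hCE.le
        have h10 : c0 + G x * c1 + T x * (CP * (CL * √Λ)) + U x * CP
            = M * (K * ε) + CP * (G x * √(K * ε) + (√ε + G x / √ε) * (K * ε) + G x * √S
              + CL * √Λ * T x + U x)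
              + CE * ((√ε + G x / √ε) * S + (√ε + G x / √ε + G x) * (√M * √S)) := by
          rw [hc0, hc1]
          ring
        simp only
        linarith)
    rw [intervalIntegral.integral_add (hDi.const_mul _) hgI, intervalIntegral.integral_const_mul,
      hE0, intervalIntegral.integral_of_le (f := g) ht.1] at h1
    have h2 : ∫ x in Ioc s0 t, g x ≤ ∫ x in Ioc s0 s1, g x := by
      apply setIntegral_mono_set hgi
      · filter_upwards [ae_restrict_mem measurableSet_Ioc] with x hx using hg0 x hx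
      · exact (Ioc_subset_Ioc_right ht.2).eventuallyLE
    linarith
  have hval : ∫ x in Ioc s0 s1, g x ≤ c0 + ε * c1 + CS * Λ * (CP * (CL * √Λ))
      + CG * (Λ * √ε + √Λ * ε) * CP := by
    have hcv : ∀ c : ℝ, ∫ _ in Ioc s0 s1, c = (s1 - s0) * c := by
      intro c
      rw [setIntegral_const]
      simp [Measure.real, h01]
    have hA : IntegrableOn (fun t => c0 + G t * c1) (Ioc s0 s1) := (hc _).add (hGi.mul_const _)
    have hB : IntegrableOn (fun t => c0 + G t * c1 + T t * (CP * (CL * √Λ))) (Ioc s0 s1) :=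
      hA.add (hTi.mul_const _)
    have i1 : ∫ x in Ioc s0 s1, g x = (s1 - s0) * c0 + (∫ t in Ioc s0 s1, G t) * c1
        + (∫ t in Ioc s0 s1, T t) * (CP * (CL * √Λ)) + (∫ t in Ioc s0 s1, U t) * CP := by
      rw [hg, integral_add hB (hUi.mul_const _), integral_add hA (hTi.mul_const _),
        integral_add (hc _) (hGi.mul_const _), hcv, integral_mul_const, integral_mul_const,
        integral_mul_const]
    rw [i1]
    have k1 : (s1 - s0) * c0 ≤ c0 := mul_le_of_le_one_left hc00 hlen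
    have k2 : (∫ t in Ioc s0 s1, G t) * c1 ≤ ε * c1 := mul_le_mul_of_nonneg_right hGε hc10
    have k3 : (∫ t in Ioc s0 s1, T t) * (CP * (CL * √Λ)) ≤ CS * Λ * (CP * (CL * √Λ)) :=
      mul_le_mul_of_nonneg_right hTΛ (by positivity)
    have k4 : (∫ t in Ioc s0 s1, U t) * CP ≤ CG * (Λ * √ε + √Λ * ε) * CP :=
      mul_le_mul_of_nonneg_right hUΛ hCP.le
    linarith
  have hSle : S ≤ ∫ x in Ioc s0 s1, g x := by
    have h1 := hkey tm htm
    have h2 : 0 ≤ ∫ x in s0..tm, D x :=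
      intervalIntegral.integral_nonneg htm.1 fun u hu => hD u ⟨hu.1, hu.2.trans htm.2⟩
    rw [hS]
    linarith
  obtain ⟨I, hI⟩ : ∃ I, I = ∫ x in Ioc s0 s1, g x := ⟨_, rfl⟩
  rw [← hI] at hval hSle hkey
  intro t ht
  exact (hkey t ht).trans (scal hε hε1 hCEε hK hCP hCL hCS hCG hCE hM hΛ hS0 hc0 hc1 hSle hval)

end W372.ME
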